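import Pool.Agent.H.MP_6a070e_co.A

set_option autoImplicit false

namespace Pool.Agent.H.MP_7c85f7_co

open Pool.Agent.H.MP_6a070e_co Finset

abbrev V (k : ℕ) := Fin k → ZMod 2

abbrev W (k : ℕ) := V k →ₗ[ZMod 2] ZMod 2

lemma cardV (k : ℕ) : Fintype.card (V k) = 2 ^ k := by simp [ZMod.card]

noncomputable def eW (k : ℕ) : V k ≃ W k := ((Pi.basisFun (ZMod 2) (Fin k)).toDualEquiv).toEquiv

noncomputable instance (k : ℕ) : Fintype (W k) := Fintype.ofEquiv _ (eW k)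

lemma cardW (k : ℕ) : Fintype.card (W k) = 2 ^ k := by
  rw [← Fintype.card_congr (eW k), cardV]

lemma fib {G H : Type} [AddCommGroup G] [AddCommGroup H] [Fintype G] [Fintype H] [DecidableEq H]
    (F : G →+ H) (x : G) :
    (univ.filter fun g => F g = F x).card * Nat.card F.range = Fintype.card G := by
  rw [← AddSubgroup.index_ker, ← Nat.card_eq_fintype_card, ← AddSubgroup.card_mul_index F.ker]
  congr 1
  rw [AddMonoidHom.card_fiber_eq_of_mem_range F ⟨x, rfl⟩ ⟨0, rfl⟩, map_zero,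
    Nat.card_eq_fintype_card, Fintype.card_subtype]
  congr 1
  ext g; simp

lemma both {k : ℕ} {f g : W k} (hf : f ≠ 0) (hg : g ≠ 0) : ∃ v, f v ≠ 0 ∧ g v ≠ 0 := by
  obtain ⟨a, ha⟩ : ∃ a, f a ≠ 0 := by
    by_contra h; push Not at h; exact hf (LinearMap.ext h)
  obtain ⟨b, hb⟩ : ∃ a, g a ≠ 0 := by
    by_contra h; push Not at h; exact hg (LinearMap.ext h)
  by_cases h1 : g a ≠ 0
  · exact ⟨a, ha, h1⟩
  by_cases h2 : f b ≠ 0
  · exact ⟨b, h2, hb⟩
  push Not at h1 h2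
  exact ⟨a + b, by rwa [map_add, h2, add_zero], by rwa [map_add, h1, zero_add]⟩

lemma cardS {k : ℕ} {f g : W k} (hf : f ≠ 0) (hg : g ≠ 0) :
    4 * (univ.filter fun v => ¬ (f v ≠ 0 ∧ g v ≠ 0)).card ≤ 3 * 2 ^ k := by
  obtain ⟨v, h1, h2⟩ := both hf hg
  have h := fib (f.toAddMonoidHom.prod g.toAddMonoidHom) v
  have h3 : Nat.card (f.toAddMonoidHom.prod g.toAddMonoidHom).range ≤ 4 := by
    refine (Nat.card_le_card_of_injective _ Subtype.val_injective).trans ?_
    simp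
  have h4 := card_filter_add_card_filter_not (s := univ) fun v => (f v ≠ 0 ∧ g v ≠ 0)
  rw [card_univ, cardV] at h4
  rw [cardV] at h
  have h5 : (univ.filter fun x => (f.toAddMonoidHom.prod g.toAddMonoidHom) x =
      (f.toAddMonoidHom.prod g.toAddMonoidHom) v) ⊆ univ.filter fun v => (f v ≠ 0 ∧ g v ≠ 0) := by
    intro x hx
    have h6 := (mem_filter.1 hx).2
    have h7 : f x = f v := congrArg Prod.fst h6
    have h8 : g x = g v := congrArg Prod.snd h6
    exact mem_filter.2 ⟨mem_univ _, by rwa [h7], by rwa [h8]⟩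
  have h9 := card_le_card h5
  have := Nat.mul_le_mul h9 h3
  omega

lemma cardZ {k n : ℕ} (T : Finset (Fin n)) (hT : T.Nonempty) :
    (univ.filter fun φ : Fin n → V k => ∑ e ∈ T, φ e = 0).card * 2 ^ k = (2 ^ k) ^ n := by
  let F : (Fin n → V k) →+ V k := ∑ e ∈ T, Pi.evalAddMonoidHom (fun _ => V k) e
  have hF : ∀ φ, F φ = ∑ e ∈ T, φ e := fun φ => by simp [F]
  have h := fib F 0
  have h1 : F.range = ⊤ := by
    rw [AddMonoidHom.range_eq_top]
    intro v
    obtain ⟨a, ha⟩ := hT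
    refine ⟨Pi.single a v, ?_⟩
    rw [hF, sum_eq_single a (fun b _ hb => Pi.single_eq_of_ne hb _) (fun h => absurd ha h)]
    simp
  rw [h1, AddSubgroup.card_top, Nat.card_eq_fintype_card, cardV, map_zero, Fintype.card_fun, cardV,
    Fintype.card_fin] at h
  simpa only [hF] using h

lemma big (t : ℕ) : ∃ k : ℕ, 3 ≤ k ∧ 2 * (10 * k) ^ t < 2 ^ k := by
  have h := tendsto_pow_const_div_const_pow_of_one_lt t (r := 2) (by norm_num)
  obtain ⟨k, h1, h2⟩ := ((h.eventually (gt_mem_nhds (show (0 : ℝ) < 1 / (2 * 10 ^ t) by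
    positivity))).and (Filter.eventually_ge_atTop 3)).exists
  refine ⟨k, h2, ?_⟩
  rw [div_lt_div_iff₀ (by positivity) (by positivity)] at h1
  have : (2 : ℝ) * (10 * k) ^ t < 2 ^ k := by rw [mul_pow]; linarith
  exact_mod_cast this

lemma ex (t : ℕ) : ∃ (k n : ℕ) (φ : Fin n → V k), 3 ≤ k ∧
    (∀ T : Finset (Fin n), T.Nonempty → ∑ e ∈ T, φ e = 0 → t + 1 < T.card) ∧
    ∀ f g : W k, f ≠ 0 → g ≠ 0 → (D φ f ∩ D φ g).Nonempty := by
  classical
  obtain ⟨k, hk, hlt⟩ := big (t + 1)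
  set n := 10 * k with hn
  let B1 : Finset (Fin n → V k) := univ.biUnion fun g : Fin (t + 1) → Fin n =>
    univ.filter fun φ => ∑ e ∈ univ.image g, φ e = 0
  let B2 : Finset (Fin n → V k) := (univ.filter fun p : W k × W k => p.1 ≠ 0 ∧ p.2 ≠ 0).biUnion
    fun p => Fintype.piFinset fun _ => univ.filter fun v => ¬ (p.1 v ≠ 0 ∧ p.2 v ≠ 0)
  have h1 : B1.card * 2 ^ k ≤ n ^ (t + 1) * (2 ^ k) ^ n := by
    refine (Nat.mul_le_mul_right _ card_biUnion_le).trans ?_
    rw [sum_mul, sum_congr rfl fun g _ => cardZ _ (univ_nonempty.image g)]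
    simp
  have h2 : 4 ^ n * B2.card ≤ 2 ^ k * 2 ^ k * (3 * 2 ^ k) ^ n := by
    refine (Nat.mul_le_mul_left _ card_biUnion_le).trans ?_
    rw [mul_sum]
    refine (sum_le_card_nsmul _ _ ((3 * 2 ^ k) ^ n) fun p hp => ?_).trans ?_
    · rw [Fintype.card_piFinset, prod_const, card_univ, Fintype.card_fin, ← mul_pow]
      exact Nat.pow_le_pow_left (cardS (mem_filter.1 hp).2.1 (mem_filter.1 hp).2.2) _
    · rw [smul_eq_mul]
      refine Nat.mul_le_mul_right _ ((card_filter_le _ _).trans ?_)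
      rw [card_univ, Fintype.card_prod, cardW]
  have h3 : 2 * (2 ^ k * 2 ^ k * 3 ^ n) ≤ 4 ^ n := by
    rw [hn, pow_mul, pow_mul, ← mul_pow, ← mul_pow]
    calc 2 * (2 * 2 * 3 ^ 10) ^ k ≤ 2 ^ k * (2 * 2 * 3 ^ 10) ^ k :=
          Nat.mul_le_mul_right _ (Nat.le_self_pow (by omega) _)
      _ = (2 * (2 * 2 * 3 ^ 10)) ^ k := by rw [← mul_pow]
      _ ≤ _ := Nat.pow_le_pow_left (by norm_num) _
  have hq : 0 < (2 ^ k) ^ n := by positivity
  have h4 : 2 * B1.card < (2 ^ k) ^ n := by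
    have : 2 * B1.card * 2 ^ k < (2 ^ k) ^ n * 2 ^ k := by
      have := Nat.mul_lt_mul_of_pos_right hlt hq
      nlinarith
    exact lt_of_mul_lt_mul_right this (Nat.zero_le _)
  have h5 : 2 * B2.card ≤ (2 ^ k) ^ n := by
    have : 4 ^ n * (2 * B2.card) ≤ 4 ^ n * (2 ^ k) ^ n := by
      have := Nat.mul_le_mul_right ((2 ^ k) ^ n) h3
      rw [mul_pow] at h2
      nlinarith
    exact Nat.le_of_mul_le_mul_left this (by positivity)
  obtain ⟨φ, -, hφ⟩ := exists_mem_notMem_of_card_lt_card (s := B1 ∪ B2) (t := univ) (by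
    rw [card_univ, Fintype.card_fun, cardV, Fintype.card_fin]
    have := card_union_le B1 B2
    omega)
  rw [mem_union, not_or] at hφ
  refine ⟨k, n, φ, hk, fun T hT h0 => ?_, fun f g hf hg => ?_⟩
  · by_contra hc
    obtain ⟨j⟩ := Function.Embedding.nonempty_of_card_le (α := T) (β := Fin (t + 1))
      (by simpa using hc)
    have : Nonempty T := hT.to_subtype
    have hs := Function.invFun_surjective j.injective
    refine hφ.1 (mem_biUnion.2 ⟨fun i => (Function.invFun j i : T), mem_univ _,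
      mem_filter.2 ⟨mem_univ _, ?_⟩⟩)
    rw [← h0]
    congr 1
    ext e
    simp only [mem_image, mem_univ, true_and]
    exact ⟨fun ⟨i, hi⟩ => hi ▸ (Function.invFun j i).2, fun he => by
      obtain ⟨i, hi⟩ := hs ⟨e, he⟩
      exact ⟨i, by rw [hi]⟩⟩
  · by_contra hc
    refine hφ.2 (mem_biUnion.2 ⟨(f, g), mem_filter.2 ⟨mem_univ _, hf, hg⟩, ?_⟩)
    rw [Fintype.mem_piFinset]
    exact fun e => mem_filter.2 ⟨mem_univ _, fun h => hc ⟨e, h⟩⟩

end Pool.Agent.H.MP_7c85f7_co
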