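import Pool.Agent.H.MP_7c85f7_co.A

set_option autoImplicit false

namespace Pool.Agent.H.MP_7c85f7_co

open Pool.Agent.H.MP_6a070e_co Set

variable {k n : ℕ} (φ : Fin n → V k)

/-- Evaluation. -/
def ev : W k →ₗ[ZMod 2] V n := LinearMap.pi fun e => LinearMap.applyₗ (φ e)

lemma quo : ∃ (m : ℕ) (π : V n →ₗ[ZMod 2] V m), Function.Surjective π ∧
    ∀ x, π x = 0 ↔ ∃ f : W k, ∀ e, f (φ e) = x e := by
  let C := LinearMap.range (ev φ)
  refine ⟨_, (Module.finBasis (ZMod 2) (V n ⧸ C)).equivFun.toLinearMap ∘ₗ C.mkQ,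
    (Module.finBasis (ZMod 2) (V n ⧸ C)).equivFun.surjective.comp C.mkQ_surjective, fun x => ?_⟩
  rw [LinearMap.comp_apply, LinearEquiv.coe_coe, LinearEquiv.map_eq_zero_iff, Submodule.mkQ_apply,
    Submodule.Quotient.mk_eq_zero, LinearMap.mem_range]
  exact exists_congr fun f => funext_iff

lemma z2 (x : ZMod 2) (p : Prop) [Decidable p] : (x = if p then 1 else 0) ↔ (p ↔ x ≠ 0) := by
  by_cases h : p <;> simp only [h, if_true, if_false] <;> revert x <;> decide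

lemma expand' (F : W n) (v : V n) : F v = ∑ i, v i * F (Pi.single i 1) := by
  conv_lhs => rw [← Finset.univ_sum_single v]
  rw [map_sum]
  refine Finset.sum_congr rfl fun i _ => ?_
  rw [← smul_eq_mul, ← map_smul, ← Pi.single_smul, smul_eq_mul, mul_one]

section
variable {m : ℕ} (π : V n →ₗ[ZMod 2] V m) (hπ : ∀ x, π x = 0 ↔ ∃ f : W k, ∀ e, f (φ e) = x e)
include hπ

lemma zs (T : Finset (Fin n)) :
    ∑ e ∈ T, π (Pi.single e 1) = 0 ↔ ∃ f : W k, (T : Set (Fin n)) = D φ f := by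
  rw [← map_sum, hπ]
  refine exists_congr fun f => ?_
  rw [Set.ext_iff]
  refine forall_congr' fun e => ?_
  rw [Finset.sum_apply, Finset.sum_pi_single, z2]
  rfl

lemma circ' (hi : ∀ f g : W k, f ≠ 0 → g ≠ 0 → (D φ f ∩ D φ g).Nonempty) (C : Set (Fin n)) :
    (vecM (k := ZMod 2) fun e => π (Pi.single e 1)).IsCircuit C ↔ ∃ f, f ≠ 0 ∧ C = D φ f := by
  have key : ∀ C, (vecM (k := ZMod 2) fun e => π (Pi.single e 1)).IsCircuit C →
      ∃ f, f ≠ 0 ∧ C = D φ f := by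
    intro C hC
    obtain ⟨T, rfl, ⟨e, he⟩, h0⟩ := circ _ hC
    obtain ⟨f, hf⟩ := (zs φ π hπ T).1 h0
    refine ⟨f, ?_, hf⟩
    rintro rfl
    have : e ∈ D φ 0 := hf ▸ he
    exact this rfl
  refine ⟨key C, ?_⟩
  rintro ⟨f, hf, rfl⟩
  have hd : (vecM (k := ZMod 2) fun e => π (Pi.single e 1)).Dep (D φ f) := by
    refine ⟨fun h => ?_, subset_univ _⟩
    rw [ind, li2] at h
    have h1 := h (toFinite (D φ f)).toFinset (by simp) ((zs φ π hπ _).2 ⟨f, by simp⟩)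
    obtain ⟨e, he, -⟩ := hi f f hf hf
    have : e ∈ (toFinite (D φ f)).toFinset := by simpa using he
    rw [h1] at this
    simp at this
  obtain ⟨C, hC, hc⟩ := hd.exists_isCircuit_subset
  obtain ⟨g, hg, rfl⟩ := key C hc
  by_cases h : f = g
  · rwa [h]
  · obtain ⟨e, h1, h2⟩ := hi (f - g) g (sub_ne_zero.2 h) hg
    have h3 : f (φ e) ≠ 0 := hC h2
    have h4 : ∀ x y : ZMod 2, x ≠ 0 → y ≠ 0 → x - y = 0 := by decide
    exact absurd (h4 _ _ h3 h2) h1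

lemma cocirc' (hs : Function.Surjective π) {K : Set (Fin n)}
    (hK : (vecM (k := ZMod 2) fun e => π (Pi.single e 1)).IsCocircuit K) :
    ∃ T : Finset (Fin n), ↑T ⊆ K ∧ T.Nonempty ∧ ∑ e ∈ T, φ e = 0 := by
  classical
  have h1 : ∀ F : W m, F ≠ 0 → (D (fun e => π (Pi.single e 1)) F).Nonempty := by
    intro F hF
    by_contra h
    refine hF (LinearMap.ext fun v => ?_)
    obtain ⟨x, rfl⟩ := hs v
    have := expand' (F ∘ₗ π) x
    rw [LinearMap.comp_apply] at this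
    rw [this]
    refine Finset.sum_eq_zero fun e _ => ?_
    have h2 : F (π (Pi.single e 1)) = 0 := by
      by_contra h3; exact h ⟨e, h3⟩
    rw [LinearMap.comp_apply, h2, mul_zero]
  obtain ⟨F, hF, hK⟩ := (meets _ h1 K).1 (Matroid.isCocircuit_iff_minimal.1 hK).1
  refine ⟨Finset.univ.filter fun e => F (π (Pi.single e 1)) ≠ 0,
    fun e he => hK (Finset.mem_filter.1 he).2, ?_, ?_⟩
  · obtain ⟨e, he⟩ := h1 F hF
    exact ⟨e, Finset.mem_filter.2 ⟨Finset.mem_univ _, he⟩⟩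
  · rw [← Module.forall_dual_apply_eq_zero_iff (ZMod 2)]
    intro f
    have h2 := expand' (F ∘ₗ π) (ev φ f)
    rw [LinearMap.comp_apply, (hπ (ev φ f)).2 ⟨f, fun _ => rfl⟩, map_zero] at h2
    rw [map_sum, Finset.sum_filter]
    refine Eq.trans (Finset.sum_congr rfl fun e _ => ?_) h2.symm
    show _ = f (φ e) * F (π (Pi.single e 1))
    generalize f (φ e) = x
    generalize F (π (Pi.single e 1)) = y
    revert x y; decide

end

lemma two (hk : 3 ≤ k) (hi : ∀ f g : W k, f ≠ 0 → g ≠ 0 → (D φ f ∩ D φ g).Nonempty)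
    (f : W k) : ∃ e e', e ∉ D φ f ∧ e' ∉ D φ f ∧ e ≠ e' := by
  classical
  have h8 : 8 ≤ (Finset.univ : Finset (W k)).card := by
    rw [Finset.card_univ, cardW]
    exact Nat.pow_le_pow_right (n := 2) (by norm_num) hk
  have pick : ∀ g : W k, g ≠ 0 → g ≠ f → ∃ e, e ∉ D φ f ∧ g (φ e) ≠ 0 := by
    intro g h0 h1
    obtain ⟨e, h2, h3⟩ := hi g (g - f) h0 (sub_ne_zero.2 h1)
    refine ⟨e, fun h4 => ?_, h2⟩
    have h4' : ∀ x y : ZMod 2, x ≠ 0 → y ≠ 0 → x - y = 0 := by decide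
    exact h3 (h4' _ _ h2 h4)
  obtain ⟨g, -, hg⟩ := Finset.exists_mem_notMem_of_card_lt_card (s := {0, f})
    (t := Finset.univ) (Finset.card_le_two.trans_lt (by omega))
  obtain ⟨h, -, hh⟩ := Finset.exists_mem_notMem_of_card_lt_card (s := {0, f, g, g + f})
    (t := Finset.univ) (Finset.card_le_four.trans_lt (by omega))
  simp only [Finset.mem_insert, Finset.mem_singleton, not_or] at hg hh
  obtain ⟨e, he, h1⟩ := pick g hg.1 hg.2
  by_cases h2 : h (φ e) = 0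
  · obtain ⟨e', he', h3⟩ := pick h hh.1 hh.2.1
    exact ⟨e, e', he, he', by rintro rfl; exact h3 h2⟩
  · obtain ⟨e', he', h3⟩ := pick (h - g) (sub_ne_zero.2 hh.2.2.1)
      (fun h5 => hh.2.2.2 (by rw [← h5]; abel))
    have h4' : ∀ x y : ZMod 2, x ≠ 0 → y ≠ 0 → x - y = 0 := by decide
    exact ⟨e, e', he, he', by rintro rfl; exact h3 (h4' _ _ h2 h1)⟩

lemma pair' {t : ℕ} (hT : ∀ T : Finset (Fin n), T.Nonempty → ∑ e ∈ T, φ e = 0 → t + 1 < T.card)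
    (e e' : Fin n) : ∃ f : W k, f ≠ 0 ∧ e ∈ D φ f ∧ e' ∈ D φ f := by
  have hz : ∀ a, ∃ f : W k, f (φ a) ≠ 0 := fun a => by
    by_contra h
    push Not at h
    have := hT {a} (by simp) (by
      rw [Finset.sum_singleton, ← Module.forall_dual_apply_eq_zero_iff (ZMod 2)]; exact h)
    simp at this
  suffices ∃ f : W k, e ∈ D φ f ∧ e' ∈ D φ f by
    obtain ⟨f, h1, h2⟩ := this
    exact ⟨f, by rintro rfl; exact h1 rfl, h1, h2⟩
  obtain ⟨f, hf⟩ := hz e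
  obtain ⟨g, hg⟩ := hz e'
  by_cases h1 : f (φ e') ≠ 0
  · exact ⟨f, hf, h1⟩
  by_cases h2 : g (φ e) ≠ 0
  · exact ⟨g, h2, hg⟩
  push Not at h1 h2
  refine ⟨f + g, ?_, ?_⟩
  · show f (φ e) + g (φ e) ≠ 0
    rwa [h2, add_zero]
  · show f (φ e') + g (φ e') ≠ 0
    rwa [h1, zero_add]

theorem main :
    ¬ (∃ t : ℕ, ∀ (α : Type) (M : Matroid α),
      M.E.Finite → M.E.Nonempty →
      (∃ (n : ℕ) (v : α → (Fin n → ZMod 2)),
        ∀ I : Set α, M.Indep I ↔ (I ⊆ M.E ∧ LinearIndepOn (ZMod 2) v I)) →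
      (∀ e ∈ M.E, ∀ f ∈ M.E, e ≠ f → ∃ C : Set α, M.IsCircuit C ∧ e ∈ C ∧ f ∈ C) →
      (∀ K : Set α, M.IsCocircuit K → t ≤ K.ncard) →
      ∃ D : Set α, M.IsCircuit D ∧
        ∀ e ∈ (M.restrict (M.E \ D)).E, ∀ f ∈ (M.restrict (M.E \ D)).E, e ≠ f →
          ∃ C : Set α, (M.restrict (M.E \ D)).IsCircuit C ∧ e ∈ C ∧ f ∈ C) := by
  rintro ⟨t, h⟩
  obtain ⟨k, n, φ, hk, hT, hi⟩ := ex t
  obtain ⟨m, π, hs, hπ⟩ := quo φ
  have hc := circ' φ π hπ hi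
  obtain ⟨a, -⟩ := two φ hk hi 0
  obtain ⟨X, hX, h2⟩ := h (Fin n) (vecM (k := ZMod 2) fun e => π (Pi.single e 1))
    (Set.toFinite _) ⟨a, trivial⟩
    ⟨m, fun e => π (Pi.single e 1), fun I => ⟨fun h1 => ⟨Set.subset_univ _, (ind _ _).1 h1⟩,
      fun h1 => (ind _ _).2 h1.2⟩⟩
    (fun e _ e' _ _ => by
      obtain ⟨f, h0, h1, h2⟩ := pair' φ hT e e'
      exact ⟨_, (hc _).2 ⟨f, h0, rfl⟩, h1, h2⟩)
    (fun K hK => by
      obtain ⟨T, h1, h2, h3⟩ := cocirc' φ π hπ hs hK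
      have h4 := hT T h2 h3
      have h5 := Set.ncard_le_ncard h1 (Set.toFinite _)
      rw [Set.ncard_coe_finset] at h5
      omega)
  obtain ⟨f, hf, rfl⟩ := (hc X).1 hX
  obtain ⟨e, e', he, he', hne⟩ := two φ hk hi f
  obtain ⟨C, hC, -⟩ := h2 e ⟨trivial, he⟩ e' ⟨trivial, he'⟩ hne
  obtain ⟨hC, hd⟩ := (Matroid.restrict_isCircuit_iff Set.sdiff_subset).1 hC
  obtain ⟨g, hg, rfl⟩ := (hc C).1 hC
  obtain ⟨x, h3, h4⟩ := hi g f hg hf
  exact (hd h3).2 h4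

end Pool.Agent.H.MP_7c85f7_co
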